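import Pool.Agent.Run7.h473.QW.Prim

set_option autoImplicit false

/-!
# Moments of every order over the prime discriminants and over arbitrary weighted families, for generic shifts

Let `s = ±1` and let `χ` run over the real primitive Dirichlet characters of conductor `q`, `2 ≤ q < X`, with
`χ(-1) = s` (that is, `χ = χ_d`, `d` fundamental of sign `s`, `q = |d|`).

1. For an arbitrary weight `w` on the characters, `|w| ≤ 1` (for instance the characteristic function of an arbitrary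
   subfamily), the moment of `∏_j L(1/2 + i α_j, χ)` with the weight `w` is determined, for almost all shift vectors,
   by the correlations of `w` with the *few* characters with a *small* squarefree kernel: with an error at most
   `X M^(-1/8)` it is the sum over the `k`-tuples `n_j ≤ X^η` whose product is a square times a number `a ≤ M` of
   `(∑_χ w(χ) χ(n_1 ⋯ n_k)) ∏ n_j^(-1/2 - i α_j)`. Here `M` may grow as slowly as one wants.

2. Consequently, the moments over the *prime* conductors (twisted by `χ(l)`, for all `l ≤ (log X)^B` at once) have an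
   asymptotic formula with an error `X (log X)^(-B)` for every `B`, for every number `k` of factors.

The proof of 1: by the dual large sieve for real characters (a consequence of the orthogonality of the values
`χ(a)`, `a` squarefree) and the mean value theorem for Dirichlet polynomials in the shifts, the terms with large
squarefree kernel are small in mean square over the shifts. The proof of 2: the Siegel-Walfisz theorem for the small
kernels.
-/

namespace Pool.Agent.Results.MP_ea46f5_nt.PrimeDiscriminants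

open Complex MeasureTheory

noncomputable section

/-- The real primitive characters modulo `q` with `χ(-1) = s` (at most one for `q ≥ 2`): the characters `χ_d` of the
fundamental discriminants `d` of sign `s` with `|d| = q`. -/
def chars (s : ℤ) (q : ℕ) : Set (DirichletCharacter ℂ q) :=
  {χ | χ.IsPrimitive ∧ χ ^ 2 = 1 ∧ χ (-1) = (s : ℂ)}

/-- The `L`-function of a Dirichlet character modulo `q ≥ 1` (the analytic continuation of `∑ χ(n) n^(-z)`). -/
def L {q : ℕ} (χ : DirichletCharacter ℂ q) (z : ℂ) : ℂ :=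
  if h : q ≠ 0 then haveI : NeZero q := ⟨h⟩; DirichletCharacter.LFunction χ z else 0

/-- The weighted moment: the sum of `w(χ) ∏_j L(1/2 + i α_j, χ)` over the `χ` in `chars s q`, `2 ≤ q < X`, `q` not
in `E`. -/
def moment {k : ℕ} (s : ℤ) (X : ℝ) (E : Finset ℕ) (w : (q : ℕ) → DirichletCharacter ℂ q → ℂ) (α : Fin k → ℝ) : ℂ :=
  ∑ q ∈ Finset.Ico 2 ⌈X⌉₊ \ E, ∑ᶠ χ ∈ chars s q, w q χ * ∏ j, L χ (1 / 2 + I * (α j : ℂ))

/-- The correlation of the weight with the character `χ(n)`: the sum of `w(χ) χ(n)` over the `χ` in `chars s q`,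
`2 ≤ q < X`. -/
def corr (s : ℤ) (X : ℝ) (w : (q : ℕ) → DirichletCharacter ℂ q → ℂ) (n : ℕ) : ℂ :=
  ∑ q ∈ Finset.Ico 2 ⌈X⌉₊, ∑ᶠ χ ∈ chars s q, w q χ * χ (n : ZMod q)

open Classical in
/-- The terms with a small squarefree kernel: the sum of `corr(n_1 ⋯ n_k) ∏_j n_j^(-1/2 - i α_j)` over the `k`-tuples
of positive integers `n_j ≤ N` such that `n_1 ⋯ n_k a` is a square for some `1 ≤ a ≤ M`. -/
def smallKernel {k : ℕ} (s : ℤ) (X : ℝ) (N M : ℕ) (w : (q : ℕ) → DirichletCharacter ℂ q → ℂ) (α : Fin k → ℝ) : ℂ :=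
  ∑ n ∈ Fintype.piFinset (fun _ : Fin k => Finset.Icc 1 N),
    (if ∃ a : ℕ, 1 ≤ a ∧ a ≤ M ∧ IsSquare ((∏ j, n j) * a) then corr s X w (∏ j, n j) else 0) *
      ∏ j, (n j : ℂ) ^ (-(1 / 2 + I * (α j : ℂ)))

/-- The moment over the prime conductors: the sum of `χ(l) ∏_j L(1/2 + i α_j, χ)` over the `χ` in `chars s p`, `p < X`
a prime, `p` not in `E`. -/
def primeMoment {k : ℕ} (s : ℤ) (X : ℝ) (E : Finset ℕ) (l : ℕ) (α : Fin k → ℝ) : ℂ :=
  ∑ p ∈ (Finset.Ico 2 ⌈X⌉₊ \ E).filter Nat.Prime,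
    ∑ᶠ χ ∈ chars s p, χ (l : ZMod p) * ∏ j, L χ (1 / 2 + I * (α j : ℂ))

/-- The number of the primes `p < X`. -/
def primeCount (X : ℝ) : ℕ := ((Finset.Ico 2 ⌈X⌉₊).filter Nat.Prime).card

open Classical in
/-- The square terms: the sum of `∏_j n_j^(-1/2 - i α_j)` over the `k`-tuples of positive integers `n_j ≤ N` for which
`l n_1 ⋯ n_k` is a square. -/
def squares {k : ℕ} (l N : ℕ) (α : Fin k → ℝ) : ℂ :=
  ∑ n ∈ Fintype.piFinset (fun _ : Fin k => Finset.Icc 1 N),
    if IsSquare (l * ∏ j, n j) then ∏ j, (n j : ℂ) ^ (-(1 / 2 + I * (α j : ℂ))) else 0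

lemma sum_chars (s : ℤ) (X : ℝ) (E : Finset ℕ) (f : (q : ℕ) → DirichletCharacter ℂ q → ℂ) :
    ∑ q ∈ Finset.Ico 2 ⌈X⌉₊ \ E, ∑ᶠ χ ∈ chars s q, f q χ =
      ∑ q ∈ Pool.Agent.N879.QM.Q s X \ E, f q (Pool.Agent.N879.QM.ch s q) := by
  classical
  have h1 : Pool.Agent.N879.QM.Q s X \ E =
      (Finset.Ico 2 ⌈X⌉₊ \ E).filter (Pool.Agent.N879.QM.Is s) := by
    ext q
    unfold Pool.Agent.N879.QM.Q
    simp only [Finset.mem_sdiff, Finset.mem_filter]
    tauto
  rw [h1, Finset.sum_filter]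
  refine Finset.sum_congr rfl fun q hq => ?_
  have hq2 : 2 ≤ q := (Finset.mem_Ico.1 (Finset.mem_sdiff.1 hq).1).1
  split_ifs with h
  · have h2 : chars s q = {Pool.Agent.N879.QM.ch s q} :=
      Pool.Agent.N879.QM.Fq_eq Pool.Agent.N879.QM.t_UNI h
    rw [h2, finsum_mem_singleton]
  · have h2 : chars s q = ∅ := Pool.Agent.N879.QM.Fq_empty hq2 h
    rw [h2, finsum_mem_empty]

lemma moment_eq {k : ℕ} (s : ℤ) (X : ℝ) (E : Finset ℕ) (w : (q : ℕ) → DirichletCharacter ℂ q → ℂ)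
    (α : Fin k → ℝ) :
    moment s X E w α = Pool.Agent.Run7.h473.QW.Wm k s X E (fun q => w q (Pool.Agent.N879.QM.ch s q)) α :=
  sum_chars s X E _

lemma corr_eq (s : ℤ) (X : ℝ) (w : (q : ℕ) → DirichletCharacter ℂ q → ℂ) (n : ℕ) :
    corr s X w n = Pool.Agent.Run7.h473.QW.Sw s X (fun q => w q (Pool.Agent.N879.QM.ch s q)) n := by
  have h := sum_chars s X ∅ (fun q χ => w q χ * χ (n : ZMod q))
  rw [Finset.sdiff_empty, Finset.sdiff_empty] at h
  exact h

lemma smallKernel_eq {k : ℕ} (s : ℤ) (X : ℝ) (N M : ℕ) (w : (q : ℕ) → DirichletCharacter ℂ q → ℂ)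
    (α : Fin k → ℝ) :
    smallKernel s X N M w α = Pool.Agent.Run7.h473.QW.PG k N
      (Pool.Agent.Run7.h473.QW.Sk s X (fun q => w q (Pool.Agent.N879.QM.ch s q)) M) α := by
  unfold smallKernel
  simp only [corr_eq]
  rfl

lemma primeMoment_eq {k : ℕ} (s : ℤ) (X : ℝ) (E : Finset ℕ) (l : ℕ) (α : Fin k → ℝ) :
    primeMoment s X E l α = Pool.Agent.Run7.h473.QW.Wm k s X E
      (fun q => Pool.Agent.Run7.h473.QW.wp q * Pool.Agent.N879.QM.vl s q l) α := by
  have h := sum_chars s X E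
    (fun q χ => if q.Prime then χ (l : ZMod q) * ∏ j, L χ (1 / 2 + I * (α j : ℂ)) else 0)
  have h1 : primeMoment s X E l α = ∑ q ∈ Finset.Ico 2 ⌈X⌉₊ \ E, ∑ᶠ χ ∈ chars s q,
      (if q.Prime then χ (l : ZMod q) * ∏ j, L χ (1 / 2 + I * (α j : ℂ)) else 0) := by
    unfold primeMoment
    rw [Finset.sum_filter]
    refine Finset.sum_congr rfl fun q _ => ?_
    split_ifs with hq
    · rfl
    · simp
  rw [h1, h]
  unfold Pool.Agent.Run7.h473.QW.Wm Pool.Agent.Run7.h473.QW.wp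
  refine Finset.sum_congr rfl fun q _ => ?_
  by_cases hq : q.Prime
  · simp only [if_pos hq, one_mul]
    rfl
  · simp only [if_neg hq, zero_mul]

lemma primeCount_eq (X : ℝ) : (primeCount X : ℝ) = Pool.Agent.Run7.h473.QW.pX X := by
  unfold primeCount Pool.Agent.Run7.h473.QW.pX H343E.pi1
  congr 2
  ext p
  rw [Finset.mem_filter, Finset.mem_filter, Finset.mem_Ico, Finset.mem_Icc]
  constructor
  · rintro ⟨⟨h1, h2⟩, h3⟩
    exact ⟨⟨by omega, by omega⟩, h3⟩
  · rintro ⟨⟨h1, h2⟩, h3⟩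
    have := h3.two_le
    exact ⟨⟨by omega, by omega⟩, h3⟩

/-- For every `k ≥ 1`, every sign `s` and every `0 < θ ≤ 1` there are `δ, η > 0`, `X₀`, `M₀` and, for every `X`, a set
`E(X)` of conductors, at most `X^(1 - δ)` in number for `X ≥ X₀`, with the following two properties.

1. For every `X ≥ X₀`, every weight `w` on the characters with `|w| ≤ 1` and every `M₀ ≤ M ≤ X^δ`, the weighted moment
over the conductors `q < X` outside `E(X)` differs by more than `X M^(-1/8)` from the sum of the terms with a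
squarefree kernel at most `M` (tuples of integers up to `⌊X^η⌋`) only on a set of shift vectors in `[-X^θ, X^θ]^k` of
measure at most `X^(kθ) M^(-1/4)`.

2. For every `B`, for `X` sufficiently large, for all shift vectors in `[-X^θ, X^θ]^k` outside a set of measure at most
`X^(kθ) (log X)^(-B)`, and all `1 ≤ l ≤ (log X)^B`, the moment over the prime conductors `p < X` outside `E(X)`,
twisted by `χ(l)`, is half the number of the primes below `X` times the square terms, with an error at most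
`X (log X)^(-B)`. -/
theorem result (k : ℕ) (hk : 1 ≤ k) (s : ℤ) (hs : s = 1 ∨ s = -1) (θ : ℝ) (hθ : 0 < θ) (hθ1 : θ ≤ 1) :
    ∃ δ η X₀ : ℝ, ∃ M₀ : ℕ, ∃ E : ℝ → Finset ℕ, 0 < δ ∧ 0 < η ∧
      (∀ X : ℝ, X₀ ≤ X → ((E X).card : ℝ) ≤ X ^ (1 - δ)) ∧
      (∀ X : ℝ, X₀ ≤ X → ∀ w : (q : ℕ) → DirichletCharacter ℂ q → ℂ, (∀ q χ, ‖w q χ‖ ≤ 1) →
        ∀ M : ℕ, M₀ ≤ M → (M : ℝ) ≤ X ^ δ →
        volume {α : Fin k → ℝ | (∀ j, |α j| ≤ X ^ θ) ∧
          X * (M : ℝ) ^ (-(1 / 8) : ℝ) < ‖moment s X (E X) w α - smallKernel s X ⌊X ^ η⌋₊ M w α‖} ≤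
          ENNReal.ofReal (X ^ (k * θ) * (M : ℝ) ^ (-(1 / 4) : ℝ))) ∧
      ∀ B : ℕ, ∃ X₁ : ℝ, ∀ X : ℝ, X₁ ≤ X →
        volume {α : Fin k → ℝ | (∀ j, |α j| ≤ X ^ θ) ∧ ∃ l : ℕ, 1 ≤ l ∧ (l : ℝ) ≤ Real.log X ^ B ∧
          X / Real.log X ^ B <
            ‖primeMoment s X (E X) l α - ((primeCount X : ℝ) / 2 : ℝ) * squares l ⌊X ^ η⌋₊ α‖} ≤
          ENNReal.ofReal (X ^ (k * θ) / Real.log X ^ B) := by
  obtain ⟨δ, η, X₀, M₀, E, hδ, hη, hE, h1, h2⟩ := Pool.Agent.Run7.h473.QW.prim k hk s hs θ hθ hθ1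
  refine ⟨δ, η, X₀, M₀, E, hδ, hη, hE, fun X hX w hw M hM hMX => ?_, fun B => ?_⟩
  · have h3 := h1 X hX (fun q => w q (Pool.Agent.N879.QM.ch s q)) (fun q => hw q _) M hM hMX
    rw [← Pool.Agent.N879.QM.vol_mS] at h3
    refine le_trans (le_of_eq ?_) h3
    congr 1
    ext α
    simp only [Set.mem_setOf_eq, moment_eq, smallKernel_eq]
  · obtain ⟨X₁, h3⟩ := h2 B
    refine ⟨X₁, fun X hX => ?_⟩
    have h4 := h3 X hX
    rw [← Pool.Agent.N879.QM.vol_mS] at h4
    refine le_trans (le_of_eq ?_) h4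
    congr 1
    ext α
    simp only [Set.mem_setOf_eq, primeMoment_eq, primeCount_eq]
    rfl

end

end Pool.Agent.Results.MP_ea46f5_nt.PrimeDiscriminants
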