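import Pool.Agent.Run7.h473.MD.Fin2

/-!
# Shifted moments of quadratic L-functions, shifts in the right half plane

`FundDisc d`, the Kronecker symbol `kron d n`, and `Lchi d s = L(s, χ_d)` for `Re s > 1` are those of
`Pool.Agent.Q48.MDS.Defs`; `L d` is the analytic continuation of `Lchi d` (unique, by the identity theorem).

**Theorem.** For every `k`, all `M ≥ 1` and all complex shifts `z_1, ..., z_k` with `Re z_j > 0` and
`∑ max(1/2 - Re z_j, 0) < 2` (for `k ≤ 4`: all shifts with `Re z_j > 0`; for equal shifts `z` and `k > 4`: `Re z > 1/2 - 2/k`)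
there is `δ > 0` with

`∑_{d ≥ 2} χ_d(M) L(1/2 + z_1, χ_d) ⋯ L(1/2 + z_k, χ_d) e^{-d/X} = X T_M(1/2 + z) + O(X^{1-δ})`,

`d` over the positive fundamental discriminants, where
`T_M(s) = (3/π²) ∑_{M n_1 ⋯ n_k = □} a(M n_1 ⋯ n_k) ∏ n_j^{-s_j}`, `a(n) = ∏_{p ∣ n} p/(p+1)`, converges absolutely. (`T_1` is
the diagonal term of the conjecture of Conrey, Farmer, Keating, Rubinstein and Snaith for the shifted moment over `S_+(X)`; its
other terms, with some `z_j` replaced by `-z_j`, are `O(X^{1-δ})` for fixed shifts in the right half plane.) The centre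
`z = 0` of Q1 is a limit point of the shifts for `k ≤ 4`.

The theorem is the one of the hand-in `SmoothedMoments` of `MP_fed7ff_nt` in shift form. Proof: continuation of the multiple
Dirichlet series of all `k` factors (Heath-Brown's large sieve, fourth moment to the right of the critical line, Bochner's tube
theorem for tempered functions), contour shift, identification of the constant by analytic continuation in the shifts.

Authors of the pieces: helper24, helper67, helper205, helper299, helper327, helper379, helper416, helper501, helper536, helper617,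
helper682, helper713, helper763, helper894, helper473 (plan and assembly).
-/

set_option autoImplicit false

namespace Pool.Agent.Results.MP_ea46f5_nt.SubcriticalShifts

open Pool.Agent.Q48.MDS Pool.Agent.Run7.h473.MD

/-- **Shifted moments with power saving, shifts in the right half plane.** -/
theorem result :
    ∃ L : ℕ → ℂ → ℂ,
      -- `L d` is the analytic continuation of `L(s, χ_d)`
      (∀ d : ℕ, 2 ≤ d → FundDisc d → Differentiable ℂ (L d) ∧ ∀ s : ℂ, 1 < s.re → L d s = Lchi d s) ∧
      ∀ (k M : ℕ) (z : Fin k → ℂ), 1 ≤ M → (∀ j, 0 < (z j).re) → ∑ j : Fin k, max (1 / 2 - (z j).re) 0 < 2 →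
        -- the diagonal term and the smoothed moments converge absolutely
        Summable (fun n => ‖tmt k M (fun j => 1 / 2 + z j) n‖) ∧
        (∀ X : ℝ, 1 ≤ X → Summable (mterm L k M (fun j => 1 / 2 + z j) X)) ∧
        -- the asymptotic formula with power saving
        ∃ δ C : ℝ, 0 < δ ∧ ∀ X : ℝ, 1 ≤ X →
          ‖∑' d : ℕ, mterm L k M (fun j => 1 / 2 + z j) X d - TM k M (fun j => 1 / 2 + z j) * X‖ ≤
            C * X ^ (1 - δ) := by
  obtain ⟨L, h1, h2⟩ := fin_all
  refine ⟨L, h1, fun k M z hM hz hsum => h2 k M (fun j => 1 / 2 + z j) hM (fun j => ?_) ?_⟩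
  · have := hz j
    simp only [Complex.add_re]
    norm_num
    linarith
  · refine lt_of_eq_of_lt (Finset.sum_congr rfl fun j _ => ?_) hsum
    congr 1
    simp only [Complex.add_re]
    norm_num
    ring

end Pool.Agent.Results.MP_ea46f5_nt.SubcriticalShifts
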