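import Pool.Agent.Run7.h473.QW.Fin

set_option autoImplicit false

/-!
# Weighted, twisted and mixed moments of quadratic Dirichlet `L`-functions of every order

Let `s = ±1` and let `χ` run over the real primitive Dirichlet characters of conductor `q`, `2 ≤ q < X`, with
`χ(-1) = s` (that is, `χ = χ_d`, `d` fundamental of sign `s`, `q = |d|`). The theorem `GenericShifts` of this folder
evaluates the sums of `∏_j L(1/2 + i α_j, χ)` over the whole family for almost all shift vectors. Here we treat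

* arbitrary weights `w(χ)`, `|w| ≤ 1`, for instance the characteristic functions of arbitrary subfamilies: after at
  most `X^(1 - δ)` conductors have been removed (a set `E` that does not depend on `w`), for all shift vectors outside
  a set of measure `X^(kθ - δ)` all the `L`-values may be replaced by Dirichlet polynomials of length `X^η`, with an
  error `X^(1 - δ)`;
* the twists by `χ(l)`, for all `l ≤ X^δ` at once, with an asymptotic formula;
* any number of further factors `L(z_i, χ)` at arbitrary points to the right of the critical line (no generic position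
  is needed for them), for instance powers of `L(1, χ)`, that is, of the class number.

The proof: as an operator between the family and the interval of the shifts, `L` minus a short Dirichlet polynomial is
small (this part is in the library of `GenericShifts`); roots of the weights are distributed over the factors; to the
right of the critical line, `L` minus a short polynomial is small in mean square over the family by Heath-Brown's large
sieve and the Polya-Vinogradov inequality, and two polynomials of different lengths keep the factors bounded.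
-/

namespace Pool.Agent.Results.MP_ea46f5_nt.WeightedMixedMoments

open Complex MeasureTheory

noncomputable section

/-- The real primitive characters modulo `q` with `χ(-1) = s` (at most one for `q ≥ 2`): the characters `χ_d` of the
fundamental discriminants `d` of sign `s` with `|d| = q`. -/
def chars (s : ℤ) (q : ℕ) : Set (DirichletCharacter ℂ q) :=
  {χ | χ.IsPrimitive ∧ χ ^ 2 = 1 ∧ χ (-1) = (s : ℂ)}

/-- The `L`-function of a Dirichlet character modulo `q ≥ 1` (the analytic continuation of `∑ χ(n) n^(-z)`). -/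
def L {q : ℕ} (χ : DirichletCharacter ℂ q) (z : ℂ) : ℂ :=
  if h : q ≠ 0 then haveI : NeZero q := ⟨h⟩; DirichletCharacter.LFunction χ z else 0

/-- The Dirichlet polynomial `∑_{n ≤ N} χ(n) n^(-z)`. -/
def P {q : ℕ} (χ : DirichletCharacter ℂ q) (N : ℕ) (z : ℂ) : ℂ :=
  ∑ n ∈ Finset.Icc 1 N, χ (n : ZMod q) * (n : ℂ) ^ (-z)

/-- The `m + k` points: `z_1, …, z_m` and `1/2 + i α_1, …, 1/2 + i α_k`. -/
def pts {m k : ℕ} (z : Fin m → ℂ) (α : Fin k → ℝ) : Fin m ⊕ Fin k → ℂ :=
  Sum.elim z fun j => 1 / 2 + I * (α j : ℂ)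

/-- The weighted moment: the sum of `w(χ) ∏_i L(z_i, χ) ∏_j L(1/2 + i α_j, χ)` over the `χ` in `chars s q`,
`2 ≤ q < X`, `q` not in `E`. -/
def moment {m k : ℕ} (s : ℤ) (X : ℝ) (E : Finset ℕ) (w : (q : ℕ) → DirichletCharacter ℂ q → ℂ) (z : Fin m → ℂ)
    (α : Fin k → ℝ) : ℂ :=
  ∑ q ∈ Finset.Ico 2 ⌈X⌉₊ \ E, ∑ᶠ χ ∈ chars s q, w q χ * ∏ x, L χ (pts z α x)

/-- The same with the Dirichlet polynomials of length `N`, over all `q`. -/
def polyMoment {m k : ℕ} (s : ℤ) (X : ℝ) (N : ℕ) (w : (q : ℕ) → DirichletCharacter ℂ q → ℂ) (z : Fin m → ℂ)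
    (α : Fin k → ℝ) : ℂ :=
  ∑ q ∈ Finset.Ico 2 ⌈X⌉₊, ∑ᶠ χ ∈ chars s q, w q χ * ∏ x, P χ N (pts z α x)

/-- `a(n) = ∏_{p ∣ n} p / (p + 1)`. -/
def a (n : ℕ) : ℝ := ∏ p ∈ n.primeFactors, (p : ℝ) / (p + 1)

open Classical in
/-- The diagonal terms: the sum of `a(l n_1 ⋯ n_(m+k)) ∏_x n_x^(-pts_x)` over the `(m+k)`-tuples of positive integers
`n_x ≤ N` for which `l n_1 ⋯ n_(m+k)` is a square. -/
def diag {m k : ℕ} (l N : ℕ) (z : Fin m → ℂ) (α : Fin k → ℝ) : ℂ :=
  ∑ n ∈ Fintype.piFinset (fun _ : Fin m ⊕ Fin k => Finset.Icc 1 N),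
    if IsSquare (l * ∏ x, n x) then (a (l * ∏ x, n x) : ℂ) * ∏ x, (n x : ℂ) ^ (-(pts z α x)) else 0

lemma moment_eq {m k : ℕ} (s : ℤ) (X : ℝ) (E : Finset ℕ) (w : (q : ℕ) → DirichletCharacter ℂ q → ℂ)
    (z : Fin m → ℂ) (α : Fin k → ℝ) :
    moment s X E w z α = ∑ q ∈ Pool.Agent.N879.QM.Q s X \ E, w q (Pool.Agent.N879.QM.ch s q) *
      ((∏ i, Pool.Agent.N879.QM.LL s q (z i)) *
        ∏ j, Pool.Agent.N879.QM.LL s q (Pool.Agent.N879.QM.pt (α j))) := by
  classical
  have h1 : Pool.Agent.N879.QM.Q s X \ E =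
      (Finset.Ico 2 ⌈X⌉₊ \ E).filter (Pool.Agent.N879.QM.Is s) := by
    ext q
    unfold Pool.Agent.N879.QM.Q
    simp only [Finset.mem_sdiff, Finset.mem_filter]
    tauto
  rw [h1, Finset.sum_filter]
  refine Finset.sum_congr rfl fun q hq => ?_
  have hq2 : 2 ≤ q := (Finset.mem_Ico.1 (Finset.mem_sdiff.1 hq).1).1
  split_ifs with h
  · have h2 : chars s q = {Pool.Agent.N879.QM.ch s q} :=
      Pool.Agent.N879.QM.Fq_eq Pool.Agent.N879.QM.t_UNI h
    rw [h2, finsum_mem_singleton, Fintype.prod_sum_type]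
    rfl
  · have h2 : chars s q = ∅ := Pool.Agent.N879.QM.Fq_empty hq2 h
    rw [h2, finsum_mem_empty]

lemma polyMoment_eq {m k : ℕ} (s : ℤ) (X : ℝ) (N : ℕ) (w : (q : ℕ) → DirichletCharacter ℂ q → ℂ)
    (z : Fin m → ℂ) (α : Fin k → ℝ) :
    polyMoment s X N w z α = ∑ q ∈ Pool.Agent.N879.QM.Q s X, w q (Pool.Agent.N879.QM.ch s q) *
      ((∏ i, Pool.Agent.Run7.h473.QW.Pz s q N (z i)) * ∏ j, Pool.Agent.N879.QM.PN s q N (α j)) := by
  classical
  have h1 : Pool.Agent.N879.QM.Q s X = (Finset.Ico 2 ⌈X⌉₊).filter (Pool.Agent.N879.QM.Is s) := rfl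
  rw [h1, Finset.sum_filter]
  refine Finset.sum_congr rfl fun q hq => ?_
  have hq2 : 2 ≤ q := (Finset.mem_Ico.1 hq).1
  split_ifs with h
  · have h2 : chars s q = {Pool.Agent.N879.QM.ch s q} :=
      Pool.Agent.N879.QM.Fq_eq Pool.Agent.N879.QM.t_UNI h
    rw [h2, finsum_mem_singleton, Fintype.prod_sum_type]
    rfl
  · have h2 : chars s q = ∅ := Pool.Agent.N879.QM.Fq_empty hq2 h
    rw [h2, finsum_mem_empty]

/-- For every `k ≥ 1`, `m ≥ 0`, every sign `s`, every `0 < θ ≤ 1` and `κ > 0` there are `δ, η > 0` and `X₀` such that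
for all `X ≥ X₀` and all points `z_1, …, z_m` with `Re z_i ≥ 1/2 + κ`, `|Im z_i| ≤ X^δ` there is a set `E` of at most
`X^(1 - δ)` conductors with the following two properties.

1. For every weight `w` on the characters with `|w| ≤ 1`, the weighted moment over the conductors outside `E` differs
by more than `X^(1 - δ)` from the weighted moment of the Dirichlet polynomials of length `⌊X^η⌋` only on a set of
shift vectors in `[-X^θ, X^θ]^k` of measure at most `X^(kθ - δ)`.

2. For all shift vectors in `[-X^θ, X^θ]^k` outside a set of measure at most `X^(kθ - δ)`, for all `1 ≤ l ≤ X^δ`, the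
moment twisted by `χ(l)` is `(3/π²) X` times the diagonal terms, with an error at most `X^(1 - δ)`. -/
theorem result (k m : ℕ) (hk : 1 ≤ k) (s : ℤ) (hs : s = 1 ∨ s = -1) (θ κ : ℝ) (hθ : 0 < θ) (hθ1 : θ ≤ 1)
    (hκ : 0 < κ) :
    ∃ δ η X₀ : ℝ, 0 < δ ∧ 0 < η ∧ ∀ X : ℝ, X₀ ≤ X →
      ∀ z : Fin m → ℂ, (∀ i, 1 / 2 + κ ≤ (z i).re ∧ |(z i).im| ≤ X ^ δ) →
      ∃ E : Finset ℕ, (E.card : ℝ) ≤ X ^ (1 - δ) ∧
        (∀ w : (q : ℕ) → DirichletCharacter ℂ q → ℂ, (∀ q χ, ‖w q χ‖ ≤ 1) →
          volume {α : Fin k → ℝ | (∀ j, |α j| ≤ X ^ θ) ∧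
            X ^ (1 - δ) < ‖moment s X E w z α - polyMoment s X ⌊X ^ η⌋₊ w z α‖} ≤
            ENNReal.ofReal (X ^ (k * θ - δ))) ∧
        volume {α : Fin k → ℝ | (∀ j, |α j| ≤ X ^ θ) ∧ ∃ l : ℕ, 1 ≤ l ∧ (l : ℝ) ≤ X ^ δ ∧
            X ^ (1 - δ) < ‖moment s X E (fun q χ => χ (l : ZMod q)) z α -
              (3 / (Real.pi : ℂ) ^ 2) * X * diag l ⌊X ^ η⌋₊ z α‖} ≤
            ENNReal.ofReal (X ^ (k * θ - δ)) := by
  obtain ⟨δ, η, X₀, hδ, hη, h⟩ := Pool.Agent.Run7.h473.QW.fin k m hk s hs θ κ hθ hθ1 hκ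
  refine ⟨δ, η, X₀, hδ, hη, fun X hX z hz => ?_⟩
  obtain ⟨E, hE, h1, h2⟩ := h X hX z hz
  refine ⟨E, hE, fun w hw => ?_, ?_⟩
  · have h3 := h1 (fun q => w q (Pool.Agent.N879.QM.ch s q)) (fun q => hw q _)
    rw [← Pool.Agent.N879.QM.vol_mS] at h3
    refine le_trans (le_of_eq ?_) h3
    congr 1
    ext α
    simp only [Set.mem_setOf_eq, moment_eq, polyMoment_eq]
    rfl
  · rw [← Pool.Agent.N879.QM.vol_mS] at h2
    refine le_trans (le_of_eq ?_) h2
    congr 1
    ext α
    have e2 : (3 / (Real.pi : ℂ) ^ 2) * X = ((Pool.Agent.N879.QM.c0 * X : ℝ) : ℂ) := by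
      unfold Pool.Agent.N879.QM.c0
      push_cast
      ring
    simp only [Set.mem_setOf_eq, moment_eq, e2]
    rfl

end

end Pool.Agent.Results.MP_ea46f5_nt.WeightedMixedMoments
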